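import Mathlib

/-!
# MP_6829b3_nt, project IR: the Diophantine main lemma (statement)

`MLU` is the only Diophantine input of the irrationality proof. It is proved in
`Pool.Agent.Helper42.IR.Final` (from the Subspace theorem). Users import this file only.
-/

set_option autoImplicit false

namespace Pool.Agent.Helper42.IR

/-- Main lemma: an integer is never extremely close to a sum of boundedly many `{2,3}`-units with
coefficients from a fixed finite set of nonzero rationals, if these units are pairwise far apart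
and the closeness is measured by one of them, which is at most `2` and has a large denominator.
All constants are uniform: `C` depends only on `R, S, H, η, δ`. -/
def MLU : Prop :=
  ∀ (R : ℕ) (S : Finset ℚ), (0 : ℚ) ∉ S → ∀ (H : ℕ) (η δ : ℝ), 0 < η → 0 < δ →
    ∃ C : ℕ, ∀ N : ℕ, C ≤ N → ∀ (ι : Type) (s : Finset ι) (c : ι → ℚ) (a b : ι → ℤ),
      s.card ≤ R → (∀ i ∈ s, c i ∈ S) →
      (∀ i ∈ s, |a i| ≤ H * N ∧ |b i| ≤ H * N) →
      (∀ i ∈ s, ∀ j ∈ s, i ≠ j → (C : ℤ) < |a i - a j| ∨ (C : ℤ) < |b i - b j|) →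
      ∀ i0 ∈ s, (b i0 : ℝ) ≤ -(η * N) → (2 : ℝ) ^ (a i0) * 3 ^ (b i0) ≤ 2 →
      ∀ I : ℤ, (2 : ℝ) ^ (a i0) * 3 ^ (b i0) * (2 : ℝ) ^ (-δ * N) <
        |(I : ℝ) - ∑ i ∈ s, (c i : ℝ) * (2 ^ a i * 3 ^ b i)|

end Pool.Agent.Helper42.IR
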