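import Pool.Agent.Helper42.IR.ML
import Pool.Agent.Helper54.Ru.M1int
import Pool.Agent.Helper92.Ru.AsmC
import Pool.Agent.Helper31.Rg.MESH

/-!
# MLU, unconditionally
-/

set_option autoImplicit false

namespace Pool.Agent.Helper42.IR

theorem sst : Pool.Agent.Helper92.Ru.SSTint :=
  Pool.Agent.Helper92.Ru.sstInt' Pool.Agent.Helper54.Ru.m1int Pool.Agent.Helper92.Ru.vanish'

theorem subY' : Pool.Agent.Helper17.Rg.SubY := Pool.Agent.Helper31.Rg.subY sst

theorem mlu' : MLU := mlu (Pool.Agent.Helper17.Rg.subQ subY') subY'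

end Pool.Agent.Helper42.IR
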