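import Pool.Agent.Helper42.IR.SUBU

/-!
# Height of `2 ^ a * 3 ^ b` and the lower bound LB
-/

set_option autoImplicit false

open NumberField Pool.Agent.Helper92.Ru Pool.Agent.Helper17.Rg

namespace Pool.Agent.Helper42.IR

variable {T : Finset (FinitePlace ℚ)}

/-- the infinite place -/
noncomputable def vI : SP ℚ T := Sum.inl Rat.infinitePlace

theorem nS_vI (x : ℚ) : nS (vI : SP ℚ T) x = |(x : ℝ)| := by
  have hm : Rat.infinitePlace.mult = 1 :=
    InfinitePlace.mult_isReal ⟨Rat.infinitePlace, Rat.isReal_infinitePlace⟩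
  show Rat.infinitePlace x ^ Rat.infinitePlace.mult = _
  rw [hm, pow_one, Rat.infinitePlace_apply]
  simp

theorem exists_lt_one (hT : ∀ w : FinitePlace ℚ, w ∉ T → w (2 : ℚ) = 1 ∧ w (3 : ℚ) = 1)
    (a b : ℤ) (h1 : (1 : ℝ) < (2 : ℝ) ^ a * 3 ^ b) :
    ∃ w ∈ T, w ((2 : ℚ) ^ a * 3 ^ b) < 1 := by
  by_contra h
  push Not at h
  have h2 := unit_prod hT a b
  rw [Fintype.prod_sum_type] at h2
  have h3 : (∏ v : InfinitePlace ℚ, nS (T := T) (Sum.inl v) ((2 : ℚ) ^ a * 3 ^ b)) =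
      (2 : ℝ) ^ a * 3 ^ b := by
    rw [Fintype.prod_subsingleton _ Rat.infinitePlace]
    have := nS_vI (T := T) ((2 : ℚ) ^ a * 3 ^ b)
    unfold vI at this
    rw [this, abs_of_pos]
    · push_cast; rfl
    · have : (0:ℝ) < (2 : ℝ) ^ a * 3 ^ b := by linarith
      push_cast; exact this
  rw [h3] at h2
  have h4 : (1 : ℝ) ≤ ∏ w : {w : FinitePlace ℚ // w ∈ T}, nS (T := T) (Sum.inr w)
      ((2 : ℚ) ^ a * 3 ^ b) := by
    exact Finset.one_le_prod (fun w _ => h w.1 w.2)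
  nlinarith

theorem exists_v2 (hT : ∀ w : FinitePlace ℚ, w ∉ T → w (2 : ℚ) = 1 ∧ w (3 : ℚ) = 1) :
    ∃ v : SP ℚ T, nS v (2 : ℚ) < 1 ∧ nS v (3 : ℚ) = 1 ∧ ∀ n : ℤ, nS v (n : ℚ) ≤ 1 := by
  obtain ⟨w, hw, h⟩ := exists_lt_one hT 1 0 (by norm_num)
  have h' : w (2 : ℚ) < 1 := by simpa using h
  refine ⟨Sum.inr ⟨w, hw⟩, h', ?_, fun n => w_int_le w n⟩
  have h3 : w (3 : ℚ) ≤ 1 := by simpa using w_int_le w 3
  rcases h3.lt_or_eq with h4 | h4
  · exfalso
    have h5 := FinitePlace.add_le w (3 : ℚ) (-2)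
    rw [show (3 : ℚ) + -2 = 1 by norm_num, map_one, map_neg_eq_map] at h5
    have := max_lt h4 h'
    linarith
  · exact h4

theorem exists_v3 (hT : ∀ w : FinitePlace ℚ, w ∉ T → w (2 : ℚ) = 1 ∧ w (3 : ℚ) = 1) :
    ∃ v : SP ℚ T, nS v (3 : ℚ) < 1 ∧ nS v (2 : ℚ) = 1 ∧ ∀ n : ℤ, nS v (n : ℚ) ≤ 1 := by
  obtain ⟨w, hw, h⟩ := exists_lt_one hT 0 1 (by norm_num)
  have h' : w (3 : ℚ) < 1 := by simpa using h
  refine ⟨Sum.inr ⟨w, hw⟩, h', ?_, fun n => w_int_le w n⟩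
  have h3 : w (2 : ℚ) ≤ 1 := by simpa using w_int_le w 2
  rcases h3.lt_or_eq with h4 | h4
  · exfalso
    have h5 := FinitePlace.add_le w (3 : ℚ) (-2)
    rw [show (3 : ℚ) + -2 = 1 by norm_num, map_one, map_neg_eq_map] at h5
    have := max_lt h' h4
    linarith
  · exact h4

/-- `nS v (2 ^ a * 3 ^ b)` as an exponential -/
theorem unit_exp (v : SP ℚ T) (a b : ℤ) : nS v ((2 : ℚ) ^ a * 3 ^ b) =
    Real.exp (a * Real.log (nS v (2 : ℚ)) + b * Real.log (nS v (3 : ℚ))) := by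
  rw [← unit_log, Real.exp_log (nS_pos v (unit_ne _ _))]

theorem log_vI2 : Real.log (nS (vI : SP ℚ T) (2 : ℚ)) = Real.log 2 := by
  rw [nS_vI]; norm_num

theorem log_vI3 : Real.log (nS (vI : SP ℚ T) (3 : ℚ)) = Real.log 3 := by
  rw [nS_vI]; norm_num

theorem height (hT : ∀ w : FinitePlace ℚ, w ∉ T → w (2 : ℚ) = 1 ∧ w (3 : ℚ) = 1) :
    ∃ κ : ℝ, 0 < κ ∧ ∀ (a b : ℤ) (M : ℝ), |(a : ℝ)| ≤ M → |(b : ℝ)| ≤ M →
      (|(a : ℝ)| = M ∨ |(b : ℝ)| = M) →
      ∃ v : SP ℚ T, (2 : ℝ) ^ (κ * M) ≤ nS v ((2 : ℚ) ^ a * 3 ^ b) := by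
  obtain ⟨v2, h22, h23, -⟩ := exists_v2 hT
  obtain ⟨v3, h33, h32, -⟩ := exists_v3 hT
  have hl2 : 0 < Real.log 2 := Real.log_pos (by norm_num)
  have hl3 : Real.log 2 < Real.log 3 := Real.log_lt_log (by norm_num) (by norm_num)
  have hl4 : Real.log 3 < 2 * Real.log 2 := by
    have : 2 * Real.log 2 = Real.log 4 := by
      rw [show (4:ℝ) = 2 ^ 2 by norm_num, Real.log_pow]; norm_num
    rw [this]
    exact Real.log_lt_log (by norm_num) (by norm_num)
  set x2 : ℝ := -Real.log (nS v2 (2 : ℚ)) with hx2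
  set x3 : ℝ := -Real.log (nS v3 (3 : ℚ)) with hx3
  have hx2p : 0 < x2 := by
    have := Real.log_neg (nS_pos v2 (by norm_num : (2:ℚ) ≠ 0)) h22
    linarith
  have hx3p : 0 < x3 := by
    have := Real.log_neg (nS_pos v3 (by norm_num : (3:ℚ) ≠ 0)) h33
    linarith
  set κ : ℝ := min (1 / 2) (min (x2 / (4 * Real.log 2)) (x3 / (4 * Real.log 2))) with hκ
  have hκp : 0 < κ := by
    refine lt_min (by norm_num) (lt_min ?_ ?_) <;> positivity
  have k1 : κ ≤ 1 / 2 := min_le_left _ _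
  have k2 : κ * Real.log 2 ≤ x2 / 4 := by
    have : κ ≤ x2 / (4 * Real.log 2) := (min_le_right _ _).trans (min_le_left _ _)
    rw [le_div_iff₀ (by positivity)] at this
    linarith
  have k3 : κ * Real.log 2 ≤ x3 / 4 := by
    have : κ ≤ x3 / (4 * Real.log 2) := (min_le_right _ _).trans (min_le_right _ _)
    rw [le_div_iff₀ (by positivity)] at this
    linarith
  refine ⟨κ, hκp, fun a b M ha hb hM => ?_⟩
  have hM0 : 0 ≤ M := (abs_nonneg _).trans ha
  by_contra hcon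
  push Not at hcon
  have e2 := hcon v2
  have e3 := hcon v3
  have eI := hcon vI
  rw [unit_exp, Real.rpow_def_of_pos (by norm_num), Real.exp_lt_exp] at e2 e3 eI
  rw [h23, Real.log_one, mul_zero, add_zero] at e2
  rw [h32, Real.log_one, mul_zero, zero_add] at e3
  rw [log_vI2, log_vI3] at eI
  have e2' : -((a : ℝ)) * x2 < M * (x2 / 4) := by
    have : Real.log 2 * (κ * M) ≤ M * (x2 / 4) := by nlinarith
    have h5 : (a : ℝ) * Real.log (nS v2 (2 : ℚ)) = -(a : ℝ) * x2 := by rw [hx2]; ring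
    linarith
  have e3' : -((b : ℝ)) * x3 < M * (x3 / 4) := by
    have : Real.log 2 * (κ * M) ≤ M * (x3 / 4) := by nlinarith
    have h5 : (b : ℝ) * Real.log (nS v3 (3 : ℚ)) = -(b : ℝ) * x3 := by rw [hx3]; ring
    linarith
  have a1 : -(M / 4) < a := by
    by_contra h
    push Not at h
    nlinarith
  have b1 : -(M / 4) < b := by
    by_contra h
    push Not at h
    nlinarith
  have hMp : 0 < M := by
    rcases hM0.lt_or_eq with h | h
    · exact h
    · exfalso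
      have ha0 : |(a : ℝ)| ≤ 0 := by rw [h]; exact ha
      have hb0 : |(b : ℝ)| ≤ 0 := by rw [h]; exact hb
      have ha1 : (a : ℝ) = 0 := abs_nonpos_iff.1 ha0
      have hb1 : (b : ℝ) = 0 := abs_nonpos_iff.1 hb0
      rw [ha1, hb1, ← h] at eI
      simp at eI
  have hκM : Real.log 2 * (κ * M) ≤ Real.log 2 * M / 2 := by nlinarith [mul_pos hl2 hMp]
  rcases hM with h | h
  · have : (a : ℝ) = M := by
      rcases abs_eq hM0 |>.1 h with h6 | h6
      · exact h6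
      · rw [h6] at a1; linarith
    rw [this] at eI
    nlinarith
  · have : (b : ℝ) = M := by
      rcases abs_eq hM0 |>.1 h with h6 | h6
      · exact h6
      · rw [h6] at b1; linarith
    rw [this] at eI
    nlinarith

/-- LB: a sum of pairwise far units is not much smaller than each of its terms, at any place -/
theorem lb (hT : ∀ w : FinitePlace ℚ, w ∉ T → w (2 : ℚ) = 1 ∧ w (3 : ℚ) = 1) (hS : SubY)
    {ι : Type} [DecidableEq ι] (s : Finset ι) :
    ∀ (c : ι → ℚ), (∀ i ∈ s, c i ≠ 0) → ∀ (H : ℕ) (δ : ℝ), 0 < δ → ∃ C : ℕ,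
      ∀ N : ℕ, C ≤ N → ∀ a b : ι → ℤ, (∀ i ∈ s, |a i| ≤ H * N ∧ |b i| ≤ H * N) →
        (∀ i ∈ s, ∀ j ∈ s, i ≠ j → (C : ℤ) < |a i - a j| ∨ (C : ℤ) < |b i - b j|) →
        ∀ (v : SP ℚ T), ∀ i ∈ s, nS v ((2 : ℚ) ^ a i * 3 ^ b i) * (2 : ℝ) ^ (-δ * N) <
          nS v (∑ j ∈ s, c j * ((2 : ℚ) ^ a j * 3 ^ b j)) := by
  classical
  obtain ⟨κ, hκ, hheight⟩ := height hT
  induction s using Finset.strongInduction with
  | H s ih =>
  intro c hc H δ hδ
  -- relations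
  have hsub : ∀ (v : SP ℚ T) (m : s), ∃ (N0 : ℕ) (F : Finset (ι → ℚ)), (∀ u ∈ F, ∃ i ∈ s, u i ≠ 0) ∧
      ∀ N : ℕ, N0 ≤ N → ∀ a b : ι → ℤ, (∀ i ∈ s, |a i| ≤ H * N ∧ |b i| ≤ H * N) →
        nS v (∑ i ∈ s, c i * ((2 : ℚ) ^ a i * 3 ^ b i)) ≤
          nS v ((2 : ℚ) ^ a m.1 * 3 ^ b m.1) * (2 : ℝ) ^ (-δ * N) →
        ∃ u ∈ F, ∑ i ∈ s, u i * ((2 : ℚ) ^ a i * 3 ^ b i) = 0 := fun v m =>
    subUF hT hS s c v m.1 m.2 (hc m.1 m.2) H δ hδ
  choose N0 F hF hmain using hsub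
  -- consequences of one relation
  have hrel : ∀ u : ι → ℚ, (∃ i ∈ s, u i ≠ 0) → ∃ C : ℕ, ∀ a b : ι → ℤ,
      (∀ i ∈ s, ∀ j ∈ s, i ≠ j → (C : ℤ) < |a i - a j| ∨ (C : ℤ) < |b i - b j|) →
      ∑ i ∈ s, u i * ((2 : ℚ) ^ a i * 3 ^ b i) ≠ 0 := by
    rintro u ⟨i1, hi1, hui1⟩
    set t : Finset ι := (s.filter (fun i => u i ≠ 0)).erase i1 with ht
    have hts : t ⊂ s := by
      refine Finset.ssubset_iff_subset_ne.2 ⟨?_, ?_⟩
      · exact (Finset.erase_subset _ _).trans (Finset.filter_subset _ _)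
      · intro h
        rw [← h] at hi1
        simp [ht] at hi1
    have hut : ∀ i ∈ t, u i ≠ 0 := by
      intro i hi
      simp only [ht, Finset.mem_erase, Finset.mem_filter] at hi
      exact hi.2.2
    obtain ⟨C1, hC1⟩ := ih t hts u hut 1 (κ / 2) (by linarith)
    obtain ⟨C2, hC2⟩ : ∃ C2 : ℕ, ∀ N' : ℕ, C2 ≤ N' → ∀ v : SP ℚ T,
        nS v (u i1) ≤ (2 : ℝ) ^ (κ / 2 * N') := by
      have h1 : ∀ v : SP ℚ T, ∃ C2 : ℕ, ∀ N' : ℕ, C2 ≤ N' → nS v (u i1) ≤ (2 : ℝ) ^ (κ / 2 * N') := by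
        intro v
        have h2 : (1:ℝ) < (2:ℝ) ^ (κ / 2) := Real.one_lt_rpow (by norm_num) (by linarith)
        obtain ⟨n, hn⟩ := pow_unbounded_of_one_lt (nS v (u i1)) h2
        refine ⟨n, fun N' hN' => ?_⟩
        rw [Real.rpow_mul (by norm_num), Real.rpow_natCast]
        exact hn.le.trans (pow_le_pow_right₀ h2.le hN')
      choose f hf using h1
      exact ⟨Finset.univ.sup f, fun N' hN' v => hf v N' ((Finset.le_sup (Finset.mem_univ v)).trans hN')⟩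
    refine ⟨max C1 C2, fun a b hfar h0 => ?_⟩
    have hsum : ∑ i ∈ s, u i * ((2 : ℚ) ^ a i * 3 ^ b i) =
        u i1 * ((2 : ℚ) ^ a i1 * 3 ^ b i1) + ∑ i ∈ t, u i * ((2 : ℚ) ^ a i * 3 ^ b i) := by
      rw [ht, Finset.add_sum_erase _ (fun i => u i * ((2 : ℚ) ^ a i * 3 ^ b i)) (by simp [hi1, hui1])]
      rw [Finset.sum_filter]
      refine Finset.sum_congr rfl fun i _ => ?_
      by_cases h : u i = 0 <;> simp [h]
    rw [hsum] at h0
    rcases t.eq_empty_or_nonempty with he | hne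
    · rw [he, Finset.sum_empty, add_zero] at h0
      exact mul_ne_zero hui1 (unit_ne _ _) h0
    -- the largest difference
    obtain ⟨j, hj, hjmax⟩ := Finset.exists_max_image t
      (fun i => max (a i - a i1).natAbs (b i - b i1).natAbs) hne
    set N' : ℕ := max (a j - a i1).natAbs (b j - b i1).natAbs with hN'
    have hts' : ∀ i ∈ t, i ∈ s ∧ i ≠ i1 := by
      intro i hi
      simp only [ht, Finset.mem_erase, Finset.mem_filter] at hi
      exact ⟨hi.2.1, hi.1⟩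
    have hNC : max C1 C2 < N' := by
      have := hfar j (hts' j hj).1 i1 hi1 (hts' j hj).2
      rw [hN', lt_max_iff]
      rcases this with h | h
      · left
        have : ((max C1 C2 : ℕ) : ℤ) < ((a j - a i1).natAbs : ℤ) := by rw [Int.natCast_natAbs]; exact h
        exact_mod_cast this
      · right
        have : ((max C1 C2 : ℕ) : ℤ) < ((b j - b i1).natAbs : ℤ) := by rw [Int.natCast_natAbs]; exact h
        exact_mod_cast this
    have hle1 : C1 ≤ N' := (le_max_left C1 C2).trans hNC.le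
    have hle2 : C2 ≤ N' := (le_max_right C1 C2).trans hNC.le
    have hbd : ∀ i ∈ t, |a i - a i1| ≤ (1 : ℕ) * N' ∧ |b i - b i1| ≤ (1 : ℕ) * N' := by
      intro i hi
      have h := hjmax i hi
      have h1 : (a i - a i1).natAbs ≤ N' := (le_max_left _ _).trans h
      have h2 : (b i - b i1).natAbs ≤ N' := (le_max_right _ _).trans h
      constructor
      · rw [Int.abs_eq_natAbs, Nat.cast_one, one_mul]; exact Int.ofNat_le.2 h1
      · rw [Int.abs_eq_natAbs, Nat.cast_one, one_mul]; exact Int.ofNat_le.2 h2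
    have hfar' : ∀ i ∈ t, ∀ k ∈ t, i ≠ k → (C1 : ℤ) < |(a i - a i1) - (a k - a i1)| ∨
        (C1 : ℤ) < |(b i - b i1) - (b k - b i1)| := by
      intro i hi k hk hik
      have h := hfar i (hts' i hi).1 k (hts' k hk).1 hik
      have hc1 : (C1 : ℤ) ≤ ((max C1 C2 : ℕ) : ℤ) := by exact_mod_cast le_max_left C1 C2
      rw [show (a i - a i1) - (a k - a i1) = a i - a k by ring,
        show (b i - b i1) - (b k - b i1) = b i - b k by ring]
      rcases h with h | h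
      · left; exact lt_of_le_of_lt hc1 h
      · right; exact lt_of_le_of_lt hc1 h
    have hkey := hC1 N' hle1 (fun i => a i - a i1) (fun i => b i - b i1) hbd hfar'
    have hdiv : ∑ i ∈ t, u i * ((2 : ℚ) ^ (a i - a i1) * 3 ^ (b i - b i1)) = -u i1 := by
      have h1 : ∀ i, u i * ((2 : ℚ) ^ (a i - a i1) * 3 ^ (b i - b i1)) =
          (u i * ((2 : ℚ) ^ a i * 3 ^ b i)) / ((2 : ℚ) ^ a i1 * 3 ^ b i1) := by
        intro i
        rw [zpow_sub₀ (by norm_num), zpow_sub₀ (by norm_num)]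
        field_simp
      rw [Finset.sum_congr rfl (fun i _ => h1 i), ← Finset.sum_div,
        div_eq_iff (unit_ne (a i1) (b i1))]
      linarith
    have hMa : |((a j - a i1 : ℤ) : ℝ)| ≤ N' := by
      have := (hbd j hj).1
      rw [Nat.cast_one, one_mul] at this
      exact_mod_cast this
    have hMb : |((b j - b i1 : ℤ) : ℝ)| ≤ N' := by
      have := (hbd j hj).2
      rw [Nat.cast_one, one_mul] at this
      exact_mod_cast this
    have hMe : |((a j - a i1 : ℤ) : ℝ)| = N' ∨ |((b j - b i1 : ℤ) : ℝ)| = N' := by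
      rcases max_cases (a j - a i1).natAbs (b j - b i1).natAbs with h | h
      · left
        rw [hN', h.1, Nat.cast_natAbs, Int.cast_abs]
      · right
        rw [hN', h.1, Nat.cast_natAbs, Int.cast_abs]
    obtain ⟨v, hv⟩ := hheight (a j - a i1) (b j - b i1) N' hMa hMb hMe
    have h2 := hkey v j hj
    rw [hdiv, nS_neg] at h2
    have h3 := hC2 N' hle2 v
    have h4 : (2 : ℝ) ^ (κ * N') * (2 : ℝ) ^ (-(κ / 2) * N') = (2 : ℝ) ^ (κ / 2 * N') := by
      rw [← Real.rpow_add (by norm_num)]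
      congr 1
      ring
    have h5 : (2 : ℝ) ^ (κ * N') * (2 : ℝ) ^ (-(κ / 2) * N') ≤
        nS v ((2 : ℚ) ^ (a j - a i1) * 3 ^ (b j - b i1)) * (2 : ℝ) ^ (-(κ / 2) * N') :=
      mul_le_mul_of_nonneg_right hv (Real.rpow_nonneg (by norm_num) _)
    rw [h4] at h5
    linarith
  choose! D hD using hrel
  refine ⟨max (Finset.univ.sup fun p : SP ℚ T × s => N0 p.1 p.2)
    (Finset.univ.sup fun p : SP ℚ T × s => (F p.1 p.2).sup D), fun N hN a b hab hfar v i hi => ?_⟩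
  by_contra hcon
  push Not at hcon
  have hN0 : N0 v ⟨i, hi⟩ ≤ N :=
    ((Finset.le_sup (f := fun p : SP ℚ T × s => N0 p.1 p.2)
      (Finset.mem_univ (v, (⟨i, hi⟩ : s)))).trans (le_max_left _ _)).trans hN
  obtain ⟨u, hu, hu0⟩ := hmain v ⟨i, hi⟩ N hN0 a b hab hcon
  have hDu : D u ≤ max (Finset.univ.sup fun p : SP ℚ T × s => N0 p.1 p.2)
      (Finset.univ.sup fun p : SP ℚ T × s => (F p.1 p.2).sup D) :=
    ((Finset.le_sup (f := D) hu).trans (Finset.le_sup (f := fun p : SP ℚ T × s => (F p.1 p.2).sup D)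
      (Finset.mem_univ (v, (⟨i, hi⟩ : s))))).trans (le_max_right _ _)
  refine hD u (hF v ⟨i, hi⟩ u hu) a b ?_ hu0
  intro k hk l hl hkl
  have hc1 : ((D u : ℕ) : ℤ) ≤ ((max (Finset.univ.sup fun p : SP ℚ T × s => N0 p.1 p.2)
      (Finset.univ.sup fun p : SP ℚ T × s => (F p.1 p.2).sup D) : ℕ) : ℤ) := by exact_mod_cast hDu
  rcases hfar k hk l hl hkl with h | h
  · left; exact lt_of_le_of_lt hc1 h
  · right; exact lt_of_le_of_lt hc1 h

end Pool.Agent.Helper42.IR
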