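import Pool.Agent.Helper42.IR.LB
import Pool.Agent.Helper42.IR.DefsM

/-!
# The main lemma MLU
-/

set_option autoImplicit false

open NumberField Pool.Agent.Helper92.Ru Pool.Agent.Helper17.Rg

namespace Pool.Agent.Helper42.IR

variable {T : Finset (FinitePlace ℚ)}

/-- LB with some coefficients zero -/
theorem lbs (hT : ∀ w : FinitePlace ℚ, w ∉ T → w (2 : ℚ) = 1 ∧ w (3 : ℚ) = 1) (hS : SubY)
    {ι : Type} [DecidableEq ι] (s : Finset ι) (c : ι → ℚ) (H : ℕ) (δ : ℝ) (hδ : 0 < δ) :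
    ∃ C : ℕ, ∀ N : ℕ, C ≤ N → ∀ a b : ι → ℤ, (∀ i ∈ s, |a i| ≤ H * N ∧ |b i| ≤ H * N) →
        (∀ i ∈ s, ∀ j ∈ s, i ≠ j → (C : ℤ) < |a i - a j| ∨ (C : ℤ) < |b i - b j|) →
        ∀ (v : SP ℚ T), ∀ i ∈ s, c i ≠ 0 → nS v ((2 : ℚ) ^ a i * 3 ^ b i) * (2 : ℝ) ^ (-δ * N) <
          nS v (∑ j ∈ s, c j * ((2 : ℚ) ^ a j * 3 ^ b j)) := by
  obtain ⟨C, hC⟩ := lb hT hS (s.filter (fun i => c i ≠ 0)) c
    (fun i hi => (Finset.mem_filter.1 hi).2) H δ hδ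
  refine ⟨C, fun N hN a b hab hfar v i hi hci => ?_⟩
  have h1 := hC N hN a b (fun i hi => hab i (Finset.mem_filter.1 hi).1)
    (fun i hi j hj hij => hfar i (Finset.mem_filter.1 hi).1 j (Finset.mem_filter.1 hj).1 hij) v i
    (Finset.mem_filter.2 ⟨hi, hci⟩)
  have h2 : ∑ j ∈ s.filter (fun i => c i ≠ 0), c j * ((2 : ℚ) ^ a j * 3 ^ b j) =
      ∑ j ∈ s, c j * ((2 : ℚ) ^ a j * 3 ^ b j) := by
    rw [Finset.sum_filter]
    refine Finset.sum_congr rfl fun i _ => ?_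
    by_cases h : c i = 0 <;> simp [h]
  rw [h2] at h1
  exact h1

theorem ml (hQ : SubQ) (hS : SubY) (r : ℕ) (c : Fin r → ℚ) (hc : ∀ i, c i ≠ 0) (H : ℕ)
    (η δ : ℝ) (hη : 0 < η) (hδ : 0 < δ) :
    ∃ C : ℕ, ∀ N : ℕ, C ≤ N → ∀ (a b : Fin r → ℤ), (∀ i, |a i| ≤ H * N ∧ |b i| ≤ H * N) →
      (∀ i j, i ≠ j → (C : ℤ) < |a i - a j| ∨ (C : ℤ) < |b i - b j|) →
      ∀ i0, (b i0 : ℝ) ≤ -(η * N) → (2 : ℝ) ^ (a i0) * 3 ^ (b i0) ≤ 2 → ∀ I : ℤ,
        (2 : ℝ) ^ (a i0) * 3 ^ (b i0) * (2 : ℝ) ^ (-δ * N) <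
          |(I : ℝ) - ∑ i, (c i : ℝ) * (2 ^ a i * 3 ^ b i)| := by
  classical
  obtain ⟨T, hT⟩ := exists_T
  obtain ⟨v3, h33, h32, h3I⟩ := exists_v3 hT
  have hl2 : 0 < Real.log 2 := Real.log_pos (by norm_num)
  set x3 : ℝ := -Real.log (nS v3 (3 : ℚ)) with hx3
  have hx3p : 0 < x3 := by
    have := Real.log_neg (nS_pos v3 (by norm_num : (3:ℚ) ≠ 0)) h33
    linarith
  obtain ⟨N0, F, hF, hmain⟩ := hQ r c H (δ / 2) (by linarith)
  -- constants of the three applications of LB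
  have hA : ∀ u : ℚ × (Fin r → ℚ), ∃ C : ℕ, ∀ N : ℕ, C ≤ N → ∀ a b : Fin r → ℤ,
      (∀ i ∈ (Finset.univ : Finset (Fin r)), |a i| ≤ H * N ∧ |b i| ≤ H * N) →
      (∀ i ∈ (Finset.univ : Finset (Fin r)), ∀ j ∈ (Finset.univ : Finset (Fin r)), i ≠ j →
        (C : ℤ) < |a i - a j| ∨ (C : ℤ) < |b i - b j|) →
      (∀ (v : SP ℚ T), ∀ i ∈ (Finset.univ : Finset (Fin r)), u.2 i ≠ 0 →
        nS v ((2 : ℚ) ^ a i * 3 ^ b i) * (2 : ℝ) ^ (-1 * (N : ℝ)) <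
          nS v (∑ j, u.2 j * ((2 : ℚ) ^ a j * 3 ^ b j))) := by
    intro u
    exact lbs hT hS Finset.univ u.2 H 1 one_pos
  have hB : ∀ u : ℚ × (Fin r → ℚ), ∃ C : ℕ, ∀ N : ℕ, C ≤ N → ∀ a b : Fin r → ℤ,
      (∀ i ∈ (Finset.univ : Finset (Fin r)), |a i| ≤ H * N ∧ |b i| ≤ H * N) →
      (∀ i ∈ (Finset.univ : Finset (Fin r)), ∀ j ∈ (Finset.univ : Finset (Fin r)), i ≠ j →
        (C : ℤ) < |a i - a j| ∨ (C : ℤ) < |b i - b j|) →
      (∀ (v : SP ℚ T), ∀ i ∈ (Finset.univ : Finset (Fin r)), -(u.2 i / u.1) ≠ 0 →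
        nS v ((2 : ℚ) ^ a i * 3 ^ b i) * (2 : ℝ) ^ (-(η * x3 / Real.log 2) * N) <
          nS v (∑ j, -(u.2 j / u.1) * ((2 : ℚ) ^ a j * 3 ^ b j))) := by
    intro u
    exact lbs hT hS Finset.univ (fun i => -(u.2 i / u.1)) H (η * x3 / Real.log 2) (by positivity)
  have hC : ∀ u : ℚ × (Fin r → ℚ), ∃ C : ℕ, ∀ N : ℕ, C ≤ N → ∀ a b : Fin r → ℤ,
      (∀ i ∈ (Finset.univ : Finset (Fin r)), |a i| ≤ H * N ∧ |b i| ≤ H * N) →
      (∀ i ∈ (Finset.univ : Finset (Fin r)), ∀ j ∈ (Finset.univ : Finset (Fin r)), i ≠ j →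
        (C : ℤ) < |a i - a j| ∨ (C : ℤ) < |b i - b j|) →
      (∀ (v : SP ℚ T), ∀ i ∈ (Finset.univ : Finset (Fin r)), -(u.2 i / u.1) - c i ≠ 0 →
        nS v ((2 : ℚ) ^ a i * 3 ^ b i) * (2 : ℝ) ^ (-δ * N) <
          nS v (∑ j, (-(u.2 j / u.1) - c j) * ((2 : ℚ) ^ a j * 3 ^ b j))) := by
    intro u
    exact lbs hT hS Finset.univ (fun i => -(u.2 i / u.1) - c i) H δ hδ
  choose DA hDA using hA
  choose DB hDB using hB
  choose DC hDC using hC
  refine ⟨max (max N0 ⌈2 / δ⌉₊) (F.sup fun u => max (DA u) (max (DB u) (DC u))),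
    fun N hN a b hab hfar i0 hb0 hX0 I => ?_⟩
  by_contra hcon
  push Not at hcon
  have hN0 : N0 ≤ N := ((le_max_left _ _).trans (le_max_left _ _)).trans hN
  have hNδ : 2 / δ ≤ N := (Nat.le_ceil _).trans
    (by exact_mod_cast ((le_max_right _ _).trans (le_max_left _ _)).trans hN)
  have hclose : |(I : ℝ) - ∑ i, (c i : ℝ) * (2 ^ a i * 3 ^ b i)| ≤ (2 : ℝ) ^ (-(δ / 2) * N) := by
    refine hcon.trans ?_
    have h1 : (2 : ℝ) ^ (a i0) * 3 ^ (b i0) * (2 : ℝ) ^ (-δ * N) ≤ 2 * (2 : ℝ) ^ (-δ * N) :=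
      mul_le_mul_of_nonneg_right hX0 (Real.rpow_nonneg (by norm_num) _)
    refine h1.trans ?_
    have h2 : (2 : ℝ) * (2 : ℝ) ^ (-δ * N) = (2 : ℝ) ^ (1 + -δ * N) := by
      rw [Real.rpow_add (by norm_num), Real.rpow_one]
    rw [h2]
    apply Real.rpow_le_rpow_of_exponent_le (by norm_num)
    rw [div_le_iff₀ hδ] at hNδ
    nlinarith
  obtain ⟨u, hu, hu0⟩ := hmain N hN0 a b I hab hclose
  have hu_ne := hF u hu
  have hsup : max (DA u) (max (DB u) (DC u)) ≤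
      max (max N0 ⌈2 / δ⌉₊) (F.sup fun u => max (DA u) (max (DB u) (DC u))) :=
    (Finset.le_sup (f := fun u => max (DA u) (max (DB u) (DC u))) hu).trans (le_max_right _ _)
  have hfarD : ∀ D : ℕ, D ≤ max (DA u) (max (DB u) (DC u)) →
      (∀ i ∈ (Finset.univ : Finset (Fin r)), ∀ j ∈ (Finset.univ : Finset (Fin r)), i ≠ j →
        (D : ℤ) < |a i - a j| ∨ (D : ℤ) < |b i - b j|) := by
    intro D hD i _ j _ hij
    have h1 : (D : ℤ) ≤ ((max (max N0 ⌈2 / δ⌉₊)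
      (F.sup fun u => max (DA u) (max (DB u) (DC u))) : ℕ) : ℤ) := by
      exact_mod_cast hD.trans hsup
    rcases hfar i j hij with h | h
    · left; exact lt_of_le_of_lt h1 h
    · right; exact lt_of_le_of_lt h1 h
  have hND : ∀ D : ℕ, D ≤ max (DA u) (max (DB u) (DC u)) → D ≤ N := fun D hD =>
    (hD.trans hsup).trans hN
  have lA : DA u ≤ max (DA u) (max (DB u) (DC u)) := le_max_left _ _
  have lB : DB u ≤ max (DA u) (max (DB u) (DC u)) := (le_max_left _ _).trans (le_max_right _ _)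
  have lC : DC u ≤ max (DA u) (max (DB u) (DC u)) := (le_max_right _ _).trans (le_max_right _ _)
  by_cases hu1 : u.1 = 0
  · -- a relation between the units
    have hu2 : u.2 ≠ 0 := fun h => hu_ne (Prod.ext hu1 h)
    obtain ⟨i, hi⟩ := Function.ne_iff.1 hu2
    have h1 := hDA u N (hND _ lA) a b (fun i _ => hab i) (hfarD _ lA) vI i (Finset.mem_univ i) hi
    rw [hu1, zero_mul, zero_add] at hu0
    rw [hu0, nS_zero] at h1
    have h2 : 0 ≤ nS (vI : SP ℚ T) ((2 : ℚ) ^ a i * 3 ^ b i) * (2 : ℝ) ^ (-1 * (N : ℝ)) :=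
      mul_nonneg (nS_nonneg _ _) (Real.rpow_nonneg (by norm_num) _)
    linarith
  have hI : (I : ℚ) = ∑ j, -(u.2 j / u.1) * ((2 : ℚ) ^ a j * 3 ^ b j) := by
    have h1 : ∑ j, -(u.2 j / u.1) * ((2 : ℚ) ^ a j * 3 ^ b j) =
        -(∑ j, u.2 j * ((2 : ℚ) ^ a j * 3 ^ b j)) / u.1 := by
      rw [neg_div, Finset.sum_div, ← Finset.sum_neg_distrib]
      refine Finset.sum_congr rfl fun j _ => ?_
      ring
    rw [h1, eq_div_iff hu1]
    linarith
  by_cases hi0 : -(u.2 i0 / u.1) = 0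
  · -- the coefficient at i0 vanishes: contradiction at infinity
    have h1 := hDC u N (hND _ lC) a b (fun i _ => hab i) (hfarD _ lC) vI i0 (Finset.mem_univ i0)
      (by rw [hi0, zero_sub]; exact neg_ne_zero.2 (hc i0))
    have h2 : ∑ j, (-(u.2 j / u.1) - c j) * ((2 : ℚ) ^ a j * 3 ^ b j) =
        I - ∑ j, c j * ((2 : ℚ) ^ a j * 3 ^ b j) := by
      rw [hI, ← Finset.sum_sub_distrib]
      refine Finset.sum_congr rfl fun j _ => ?_
      ring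
    rw [h2, nS_vI, nS_vI] at h1
    have h3 : |(((2 : ℚ) ^ a i0 * 3 ^ b i0 : ℚ) : ℝ)| = (2 : ℝ) ^ (a i0) * 3 ^ (b i0) := by
      push_cast
      exact abs_of_pos (by positivity)
    have h4 : ((((I : ℤ) : ℚ) - ∑ j, c j * ((2 : ℚ) ^ a j * 3 ^ b j) : ℚ) : ℝ) =
        (I : ℝ) - ∑ i, (c i : ℝ) * (2 ^ a i * 3 ^ b i) := by
      push_cast
      rfl
    rw [h3, h4] at h1
    linarith
  · -- contradiction at 3
    have h1 := hDB u N (hND _ lB) a b (fun i _ => hab i) (hfarD _ lB) v3 i0 (Finset.mem_univ i0) hi0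
    rw [← hI] at h1
    have h2 := h3I I
    have h3 : (1 : ℝ) ≤ nS v3 ((2 : ℚ) ^ a i0 * 3 ^ b i0) *
        (2 : ℝ) ^ (-(η * x3 / Real.log 2) * N) := by
      rw [unit_exp, h32, Real.log_one, mul_zero, zero_add, Real.rpow_def_of_pos (by norm_num),
        ← Real.exp_add]
      apply Real.one_le_exp
      have h5 : (b i0 : ℝ) * Real.log (nS v3 (3 : ℚ)) = -(b i0 : ℝ) * x3 := by rw [hx3]; ring
      have h6 : Real.log 2 * (-(η * x3 / Real.log 2) * N) = -(η * N) * x3 := by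
        field_simp
      rw [h5, h6]
      nlinarith
    linarith

theorem mlu (hQ : SubQ) (hS : SubY) : MLU := by
  classical
  intro R S hS0 H η δ hη hδ
  -- constant for each r and c
  have h1 : ∀ (r : ℕ) (c : Fin r → ℚ), ∃ C : ℕ, (∀ i, c i ≠ 0) → ∀ N : ℕ, C ≤ N →
      ∀ (a b : Fin r → ℤ), (∀ i, |a i| ≤ H * N ∧ |b i| ≤ H * N) →
      (∀ i j, i ≠ j → (C : ℤ) < |a i - a j| ∨ (C : ℤ) < |b i - b j|) →
      ∀ i0, (b i0 : ℝ) ≤ -(η * N) → (2 : ℝ) ^ (a i0) * 3 ^ (b i0) ≤ 2 → ∀ I : ℤ,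
        (2 : ℝ) ^ (a i0) * 3 ^ (b i0) * (2 : ℝ) ^ (-δ * N) <
          |(I : ℝ) - ∑ i, (c i : ℝ) * (2 ^ a i * 3 ^ b i)| := by
    intro r c
    by_cases hc : ∀ i, c i ≠ 0
    · obtain ⟨C, hC⟩ := ml hQ hS r c hc H η δ hη hδ
      exact ⟨C, fun _ => hC⟩
    · exact ⟨0, fun h => absurd h hc⟩
  choose D hD using h1
  refine ⟨(Finset.range (R + 1)).sup fun r =>
    (Fintype.piFinset (fun _ : Fin r => S)).sup (D r), ?_⟩
  intro N hN ι s c a b hcard hcS hab hfar i0 hi0 hb0 hX0 I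
  let e := s.equivFin
  have htr : ∀ f : ι → ℝ, ∑ i ∈ s, f i = ∑ k : Fin s.card, f (e.symm k).1 := by
    intro f
    rw [← Finset.sum_coe_sort s f]
    exact (Equiv.sum_comp e.symm (fun i : s => f i.1)).symm
  have hDle : D s.card (fun k => c (e.symm k).1) ≤ (Finset.range (R + 1)).sup fun r =>
      (Fintype.piFinset (fun _ : Fin r => S)).sup (D r) := by
    have h2 : (fun k => c (e.symm k).1) ∈ Fintype.piFinset (fun _ : Fin s.card => S) := by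
      rw [Fintype.mem_piFinset]
      intro k
      exact hcS _ (e.symm k).2
    have h3 : s.card ∈ Finset.range (R + 1) := by
      rw [Finset.mem_range]; omega
    exact (Finset.le_sup (f := D s.card) h2).trans
      (Finset.le_sup (f := fun r => (Fintype.piFinset (fun _ : Fin r => S)).sup (D r)) h3)
  have hmain := hD s.card (fun k => c (e.symm k).1)
    (fun k h => hS0 (by rw [← h]; exact hcS _ (e.symm k).2)) N (hDle.trans hN)
    (fun k => a (e.symm k).1) (fun k => b (e.symm k).1) (fun k => hab _ (e.symm k).2)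
    (by
      intro k l hkl
      have hne : (e.symm k).1 ≠ (e.symm l).1 := by
        intro h
        exact hkl (e.symm.injective (Subtype.ext h))
      have hle : ((D s.card (fun k => c (e.symm k).1) : ℕ) : ℤ) ≤
          (((Finset.range (R + 1)).sup fun r =>
            (Fintype.piFinset (fun _ : Fin r => S)).sup (D r) : ℕ) : ℤ) := by
        exact_mod_cast hDle
      rcases hfar _ (e.symm k).2 _ (e.symm l).2 hne with h | h
      · left; exact lt_of_le_of_lt hle h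
      · right; exact lt_of_le_of_lt hle h)
    (e ⟨i0, hi0⟩) (by simpa using hb0) (by simpa using hX0) I
  rw [htr]
  simpa using hmain

end Pool.Agent.Helper42.IR
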