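import Pool.Agent.Helper17.Rg.SUBQ

/-!
# SUBU: the Subspace theorem for a sum of units `2 ^ a * 3 ^ b`, small at one place
-/

set_option autoImplicit false

open NumberField Pool.Agent.Helper92.Ru Pool.Agent.Helper17.Rg

namespace Pool.Agent.Helper42.IR

/-- coefficients of a linear form vanishing on a proper subspace -/
theorem exists_formN {r : ℕ} (W : Submodule ℚ (Fin r → ℚ)) (hW : W ≠ ⊤) :
    ∃ u : Fin r → ℚ, u ≠ 0 ∧ ∀ x ∈ W, ∑ i, u i * x i = 0 := by
  obtain ⟨f, hf, hfW⟩ := Submodule.exists_le_ker_of_lt_top W (lt_top_iff_ne_top.2 hW)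
  have key : ∀ x, f x = ∑ i : Fin r, f (Pi.single i 1) * x i := by
    intro x
    have h : x = ∑ i, x i • (Pi.single i (1:ℚ) : Fin r → ℚ) := by
      funext j
      simp [Finset.sum_apply, Pi.single_apply]
    conv_lhs => rw [h]
    rw [map_sum]
    simp only [map_smul, smul_eq_mul, mul_comm]
  refine ⟨fun i => f (Pi.single i 1), ?_, ?_⟩
  · intro h0
    apply hf
    refine LinearMap.ext fun x => ?_
    rw [key x, LinearMap.zero_apply]
    refine Finset.sum_eq_zero fun i _ => ?_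
    have := congrFun h0 i
    simp only [Pi.zero_apply] at this
    rw [this, zero_mul]
  · intro x hx
    have h3 := hfW hx
    rw [LinearMap.mem_ker, key x] at h3
    exact h3

/-- identity matrix with row `m` replaced by `c` -/
def mB {r : ℕ} (c : Fin r → ℚ) (m : Fin r) : Matrix (Fin r) (Fin r) ℚ :=
  (1 : Matrix (Fin r) (Fin r) ℚ).updateRow m c

theorem mB_det {r : ℕ} (c : Fin r → ℚ) (m : Fin r) : (mB c m).det = c m := by
  unfold mB
  rw [← Matrix.cramer_transpose_apply, Matrix.transpose_one, Matrix.cramer_one]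
  rfl

theorem mB_self {r : ℕ} (c : Fin r → ℚ) (m : Fin r) (x : Fin r → ℚ) :
    (mB c m).mulVec x m = ∑ i, c i * x i := by
  simp [mB, Matrix.mulVec, dotProduct]

theorem mB_ne {r : ℕ} (c : Fin r → ℚ) (m : Fin r) (x : Fin r → ℚ) (i : Fin r) (hi : i ≠ m) :
    (mB c m).mulVec x i = x i := by
  simp [mB, Matrix.mulVec, dotProduct, Matrix.updateRow_ne hi, Matrix.one_apply]

theorem subU {T : Finset (FinitePlace ℚ)}
    (hT : ∀ w : FinitePlace ℚ, w ∉ T → w (2 : ℚ) = 1 ∧ w (3 : ℚ) = 1) (hS : SubY)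
    {r : ℕ} (c : Fin r → ℚ) (v0 : SP ℚ T) (m : Fin r) (hcm : c m ≠ 0) (H : ℕ) (δ : ℝ)
    (hδ : 0 < δ) :
    ∃ (N0 : ℕ) (F : Finset (Fin r → ℚ)), (∀ u ∈ F, u ≠ 0) ∧
      ∀ N : ℕ, N0 ≤ N → ∀ a b : Fin r → ℤ, (∀ i, |a i| ≤ H * N ∧ |b i| ≤ H * N) →
        nS v0 (∑ i, c i * ((2 : ℚ) ^ a i * 3 ^ b i)) ≤
          nS v0 ((2 : ℚ) ^ a m * 3 ^ b m) * (2 : ℝ) ^ (-δ * N) →
        ∃ u ∈ F, ∑ i, u i * ((2 : ℚ) ^ a i * 3 ^ b i) = 0 := by
  classical
  let A : SP ℚ T → Matrix (Fin r) (Fin r) ℚ := fun v => if v = v0 then mB c m else 1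
  have hA : ∀ v, (A v).det ≠ 0 := by
    intro v
    simp only [A]
    split_ifs
    · rw [mB_det]; exact hcm
    · rw [Matrix.det_one]; norm_num
  have hl2 : 0 < Real.log 2 := Real.log_pos (by norm_num)
  let B : ℝ := δ + H * ∑ v : SP ℚ T,
    (|Real.log (nS v (2 : ℚ))| + |Real.log (nS v (3 : ℚ))|) / Real.log 2
  have hr : 1 ≤ r := by have := m.isLt; omega
  obtain ⟨Q0, F, hQ0, hF, hmain⟩ := hS ℚ T r hr A hA B δ hδ
  choose! u hu using fun (W : Submodule ℚ (Fin r → ℚ)) (hW : W ≠ ⊤) => exists_formN W hW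
  obtain ⟨N1, hN1⟩ : ∃ N1 : ℕ, Q0 ≤ 2 ^ N1 := by
    obtain ⟨n, hn⟩ := pow_unbounded_of_one_lt Q0 (by norm_num : (1:ℝ) < 2)
    exact ⟨n, hn.le⟩
  refine ⟨max N1 1, F.image u, ?_, ?_⟩
  · intro w hw
    obtain ⟨W, hW, rfl⟩ := Finset.mem_image.1 hw
    exact (hu W (hF W hW)).1
  intro N hN a b hab hP
  have hNN1 : N1 ≤ N := (le_max_left _ _).trans hN
  have hN1' : 1 ≤ N := (le_max_right _ _).trans hN
  have hNpos : (0:ℝ) < N := by exact_mod_cast hN1'
  let X : Fin r → ℚ := fun i => 2 ^ a i * 3 ^ b i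
  let y : SP ℚ T → Fin r → ℝ := fun v i =>
    Real.log (nS v (X i)) / (N * Real.log 2) + (if v = v0 then (if i = m then -δ else 0) else 0)
  have hQ : Q0 ≤ (2:ℝ) ^ N := hN1.trans (pow_le_pow_right₀ (by norm_num) hNN1)
  have hxS : SIntV T X := fun i => unit_SInt hT _ _
  have hyB : ∀ v i, |y v i| ≤ B := by
    intro v j
    have h0 : |Real.log (nS v (2 ^ a j * 3 ^ b j)) / (N * Real.log 2)| ≤
        H * ∑ v : SP ℚ T, (|Real.log (nS v (2 : ℚ))| + |Real.log (nS v (3 : ℚ))|) /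
          Real.log 2 := by
      rw [unit_log, abs_div, abs_of_pos (mul_pos hNpos hl2), div_le_iff₀ (mul_pos hNpos hl2)]
      have h1 : |(a j : ℝ)| ≤ H * N := by exact_mod_cast (hab j).1
      have h2 : |(b j : ℝ)| ≤ H * N := by exact_mod_cast (hab j).2
      have h3 : |(a j : ℝ) * Real.log (nS v (2:ℚ)) + b j * Real.log (nS v (3:ℚ))| ≤
          H * N * (|Real.log (nS v (2 : ℚ))| + |Real.log (nS v (3 : ℚ))|) := by
        refine (abs_add_le _ _).trans ?_
        rw [abs_mul, abs_mul, mul_add]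
        gcongr
      refine h3.trans ?_
      have h4 : (|Real.log (nS v (2 : ℚ))| + |Real.log (nS v (3 : ℚ))|) / Real.log 2 ≤
          ∑ v : SP ℚ T, (|Real.log (nS v (2 : ℚ))| + |Real.log (nS v (3 : ℚ))|) / Real.log 2 :=
        Finset.single_le_sum (f := fun v : SP ℚ T =>
          (|Real.log (nS v (2 : ℚ))| + |Real.log (nS v (3 : ℚ))|) / Real.log 2)
          (fun v _ => by positivity) (Finset.mem_univ v)
      have h5 : H * N * (|Real.log (nS v (2 : ℚ))| + |Real.log (nS v (3 : ℚ))|) =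
          H * ((|Real.log (nS v (2 : ℚ))| + |Real.log (nS v (3 : ℚ))|) / Real.log 2) *
            (N * Real.log 2) := by
        field_simp
      rw [h5]
      refine mul_le_mul_of_nonneg_right ?_ (by positivity)
      exact mul_le_mul_of_nonneg_left h4 (by positivity)
    have h7 : |(if v = v0 then (if j = m then -δ else 0) else (0:ℝ))| ≤ δ := by
      split_ifs
      · rw [abs_neg, abs_of_pos hδ]
      · rw [abs_zero]; exact hδ.le
      · rw [abs_zero]; exact hδ.le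
    show |Real.log (nS v (2 ^ a j * 3 ^ b j)) / (N * Real.log 2) + _| ≤ δ + _
    refine (abs_add_le _ _).trans ?_
    linarith
  have hQy : ∀ t : ℝ, ((2:ℝ) ^ N) ^ t = Real.exp (N * Real.log 2 * t) := by
    intro t
    rw [← Real.rpow_natCast, ← Real.rpow_mul (by norm_num), Real.rpow_def_of_pos (by norm_num)]
    ring_nf
  have hlogX : ∀ (v : SP ℚ T) (j : Fin r),
      Real.exp (N * Real.log 2 * (Real.log (nS v (X j)) / (N * Real.log 2))) = nS v (X j) := by
    intro v j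
    rw [mul_div_cancel₀ _ (mul_pos hNpos hl2).ne', Real.exp_log (nS_pos v (unit_ne _ _))]
  have hbox : ∀ v i, nS v ((A v).mulVec X i) ≤ ((2:ℝ) ^ N) ^ y v i := by
    intro v j
    have hy : ((2:ℝ) ^ N) ^ y v j = nS v (X j) * Real.exp (N * Real.log 2 *
        (if v = v0 then (if j = m then -δ else 0) else 0)) := by
      rw [hQy]
      simp only [y]
      rw [mul_add, Real.exp_add, hlogX]
    rw [hy]
    by_cases hv : v = v0
    · subst hv
      have hAv : A v = mB c m := if_pos rfl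
      rw [hAv, if_pos rfl]
      by_cases hj : j = m
      · subst hj
        rw [mB_self, if_pos rfl]
        refine hP.trans (le_of_eq ?_)
        rw [Real.rpow_def_of_pos (by norm_num)]
        congr 2
        ring
      · rw [mB_ne _ _ _ _ hj, if_neg hj]
        simp
    · have hAv : A v = 1 := if_neg hv
      rw [hAv, if_neg hv, Matrix.one_mulVec]
      simp
  have hsum : ∑ v, ∑ i, y v i ≤ -δ := by
    have h10 : ∑ v : SP ℚ T, ∑ i : Fin r, Real.log (nS v (X i)) / (N * Real.log 2) = 0 := by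
      rw [Finset.sum_comm]
      refine Finset.sum_eq_zero fun i _ => ?_
      rw [← Finset.sum_div, unit_logsum hT, zero_div]
    simp only [y, Finset.sum_add_distrib]
    rw [h10, zero_add]
    have h11 : ∑ v : SP ℚ T, ∑ i : Fin r, (if v = v0 then (if i = m then -δ else 0) else (0:ℝ)) =
        -δ := by
      rw [Finset.sum_eq_single v0]
      · simp
      · intro v _ hv
        simp [hv]
      · intro h; exact absurd (Finset.mem_univ _) h
    rw [h11]
  obtain ⟨W, hWF, hxW⟩ := hmain (2 ^ N) hQ X hxS y hyB hbox hsum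
  exact ⟨u W, Finset.mem_image_of_mem u hWF, (hu W (hF W hWF)).2 X hxW⟩

/-- Finset version -/
theorem subUF {T : Finset (FinitePlace ℚ)}
    (hT : ∀ w : FinitePlace ℚ, w ∉ T → w (2 : ℚ) = 1 ∧ w (3 : ℚ) = 1) (hS : SubY)
    {ι : Type} [DecidableEq ι] (s : Finset ι) (c : ι → ℚ) (v0 : SP ℚ T) (m : ι) (hm : m ∈ s)
    (hcm : c m ≠ 0) (H : ℕ) (δ : ℝ) (hδ : 0 < δ) :
    ∃ (N0 : ℕ) (F : Finset (ι → ℚ)), (∀ u ∈ F, ∃ i ∈ s, u i ≠ 0) ∧
      ∀ N : ℕ, N0 ≤ N → ∀ a b : ι → ℤ, (∀ i ∈ s, |a i| ≤ H * N ∧ |b i| ≤ H * N) →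
        nS v0 (∑ i ∈ s, c i * ((2 : ℚ) ^ a i * 3 ^ b i)) ≤
          nS v0 ((2 : ℚ) ^ a m * 3 ^ b m) * (2 : ℝ) ^ (-δ * N) →
        ∃ u ∈ F, ∑ i ∈ s, u i * ((2 : ℚ) ^ a i * 3 ^ b i) = 0 := by
  classical
  let e := s.equivFin
  have htr : ∀ f : ι → ℚ, ∑ i ∈ s, f i = ∑ k : Fin s.card, f (e.symm k).1 := by
    intro f
    rw [← Finset.sum_coe_sort s f]
    exact (Equiv.sum_comp e.symm (fun i : s => f i.1)).symm
  obtain ⟨N0, F, hF, hmain⟩ := subU hT hS (fun k => c (e.symm k).1) v0 (e ⟨m, hm⟩)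
    (by simpa using hcm) H δ hδ
  let ext : (Fin s.card → ℚ) → (ι → ℚ) := fun u i => if h : i ∈ s then u (e ⟨i, h⟩) else 0
  have hext : ∀ u k, ext u (e.symm k).1 = u k := by
    intro u k
    simp [ext]
  refine ⟨N0, F.image ext, ?_, ?_⟩
  · intro u hu
    obtain ⟨u', hu', rfl⟩ := Finset.mem_image.1 hu
    have h1 := hF u' hu'
    obtain ⟨k, hk⟩ := Function.ne_iff.1 h1
    exact ⟨(e.symm k).1, (e.symm k).2, by rw [hext]; exact hk⟩
  · intro N hN a b hab hle
    rw [htr] at hle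
    obtain ⟨u, hu, hu0⟩ := hmain N hN (fun k => a (e.symm k).1) (fun k => b (e.symm k).1)
      (fun k => hab _ (e.symm k).2) (by simpa using hle)
    refine ⟨ext u, Finset.mem_image_of_mem _ hu, ?_⟩
    rw [htr]
    simp only [hext]
    exact hu0

end Pool.Agent.Helper42.IR
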